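import Pool.Agent.H.MP_52c726_an.Defs

set_option autoImplicit false

namespace Pool.Agent.H.MP_52c726_an

open Filter Set Cardinal

/-- the first uncountable ordinal -/
abbrev II : Type := (ℵ₁ : Cardinal.{0}).ord.ToType

theorem cnt_Iio (a : II) : (Iio a).Countable :=
  le_aleph0_iff_set_countable.1 (lt_aleph_one_iff.1 (by simpa using mk_Iio_lt a (by simp)))

theorem cnt_Iic (a : II) : (Iic a).Countable := Iio_insert (a := a) ▸ (cnt_Iio a).insert a

theorem unc_II : ¬ (univ : Set II).Countable := by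
  rw [← le_aleph0_iff_set_countable, ← lt_aleph_one_iff, mk_univ, mk_ord_toType]
  exact lt_irrefl _

/-- an injection of `Iic a` into the naturals -/
noncomputable def en (a : II) : II → ℕ := (countable_iff_exists_injOn.1 (cnt_Iic a)).choose

theorem en_inj (a : II) : InjOn (en a) (Iic a) := (countable_iff_exists_injOn.1 (cnt_Iic a)).choose_spec

theorem fin_en (a : II) (n : ℕ) : {b | b ≤ a ∧ en a b < n}.Finite :=
  Finite.of_injOn (t := Iio n) (fun _ h => h.2) ((en_inj a).mono fun _ h => h.1) (finite_Iio n)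

/-- finite sets increasing to `Iio δ` -/
def cc (δ : II) (n : ℕ) : Set II := {a | a < δ ∧ en δ a < n}

theorem fin_cc (δ : II) (n : ℕ) : (cc δ n).Finite :=
  (fin_en δ n).subset fun _ h => ⟨h.1.le, h.2⟩

theorem ev_mem {a δ : II} (h : a < δ) : ∀ᶠ n in atTop, a ∈ cc δ n :=
  (eventually_gt_atTop (en δ a)).mono fun _ hn => ⟨h, hn⟩

theorem ev_ne {a b : II} (h : a ≠ b) : ∀ᶠ n in atTop, cc a n ≠ cc b n := by
  rcases h.lt_or_gt with h | h
  · exact (ev_mem h).mono fun n hn e => lt_irrefl _ (e ▸ hn : a ∈ cc a n).1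
  · exact (ev_mem h).mono fun n hn e => lt_irrefl _ (e ▸ hn : b ∈ cc b n).1

theorem press (m : II → ℕ) : ∃ a, {δ | m δ = m a ∧ cc δ (m δ) = cc a (m a)}.Infinite := by
  by_contra! h
  let M : ℕ → Set II := fun k => Nat.rec ∅ (fun _ s => s ∪ {δ | cc δ (m δ) ⊆ s}) k
  have h1 : ∀ k, (M k).Countable := fun k => by
    induction k with
    | zero => exact countable_empty
    | succ k ih =>
      refine ih.union (((countable_ofPred_finite_subset ih).prod (countable_univ (α := ℕ))).biUnion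
        (t := fun p _ => {δ | m δ = p.2 ∧ cc δ (m δ) = p.1}) fun p _ => ?_) |>.mono ?_
      · rcases eq_empty_or_nonempty {δ | m δ = p.2 ∧ cc δ (m δ) = p.1} with e | ⟨a, e1, e2⟩
        · simp [e]
        · exact (e1 ▸ e2 ▸ h a :).countable
      · exact union_subset_union_right _ fun δ hδ =>
          mem_iUnion₂.2 ⟨(_, m δ), ⟨⟨fin_cc δ _, hδ⟩, trivial⟩, rfl, rfl⟩
  have h2 : Monotone M := monotone_nat_of_le_succ fun k => subset_union_left
  have h3 : ∀ δ, ∀ᶠ k in atTop, δ ∈ M k := fun δ => by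
    induction δ using WellFoundedLT.induction with
    | ind δ ih =>
      obtain ⟨k, hk⟩ := ((fin_cc δ (m δ)).eventually_all.2 fun a ha => ih a ha.1).exists
      exact (eventually_ge_atTop (k + 1)).mono fun j hj => h2 hj (Or.inr hk)
  exact unc_II ((countable_iUnion h1).mono fun δ _ => mem_iUnion.2 (h3 δ).exists)

variable {K : Type}

/-- nodes of the branch `t` -/
def dd (t : II × (ℕ → K)) (n : ℕ) : Set II × List K := (cc t.1 n, (List.range n).map t.2)

theorem dd_len {t s : II × (ℕ → K)} {n m : ℕ} (h : dd t n = dd s m) : n = m := by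
  simpa [dd] using congrArg (fun p => p.2.length) h

theorem dd_ne {t s : II × (ℕ → K)} (h : t ≠ s) : ∀ᶠ n in atTop, dd t n ≠ dd s n := by
  by_cases h1 : t.1 = s.1
  · obtain ⟨k, hk⟩ := Function.ne_iff.1 fun e => h (Prod.ext h1 e)
    exact (eventually_gt_atTop k).mono fun n hn e =>
      hk (List.map_inj_left.1 (congrArg Prod.snd e) k (List.mem_range.2 hn))
  · exact (ev_ne h1).mono fun n hn e => hn (congrArg Prod.fst e)

theorem owner {D : Set (Set II × List K)} (hD : D.Countable) :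
    ∃ o : Set II × List K → II, ∀ t, ∀ᶠ n in atTop, dd t n ∈ D → o (dd t n) = t.1 := by
  classical
  obtain ⟨α, hα⟩ : ∃ α, α ∉ ⋃ e ∈ D ∩ {e | e.1.Finite}, e.1 := by
    by_contra! h
    exact unc_II (((hD.mono inter_subset_left).biUnion fun e he => he.2.countable).mono
      fun a _ => h a)
  refine ⟨fun e => if h : {δ | δ ≤ α ∧ cc δ e.2.length = e.1}.Nonempty then
    Function.argminOn (en α) _ h else α, fun t => ?_⟩
  rcases lt_or_ge α t.1 with h | h
  · exact (ev_mem h).mono fun n hn hd => absurd (mem_iUnion₂.2 ⟨_, ⟨hd, fin_cc _ _⟩, hn⟩) hα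
  · filter_upwards [(fin_en α (en α t.1)).eventually_all.2 fun b hb =>
      ev_ne (a := b) (b := t.1) fun e => (e ▸ hb.2 : en α t.1 < en α t.1).false] with n hn _
    have h1 : t.1 ∈ {δ | δ ≤ α ∧ cc δ (dd t n).2.length = (dd t n).1} := ⟨h, by simp [dd]⟩
    rw [dif_pos ⟨_, h1⟩]
    have h2 := Function.argminOn_mem (en α) _ ⟨_, h1⟩
    refine en_inj α h2.1 h (le_antisymm (Function.argminOn_le _ _ h1) (not_lt.1 fun h3 => ?_))
    exact hn _ ⟨h2.1, h3⟩ (by simpa [dd] using h2.2)

theorem press' (x : ℕ → K) (m : II → ℕ) : ∃ e, {δ | dd (δ, x) (m δ) = e}.Infinite :=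
  let ⟨a, h⟩ := press m
  ⟨dd (a, x) (m a), h.mono fun δ hδ => Prod.ext hδ.2 (by simp [dd, hδ.1])⟩

theorem ex_K (c : Cardinal.{0}) : ∃ K : Type, c ≤ #K ∧ ℵ₀ ≤ #K ∧ #(Set II × List K) ≤ #K ∧
    #K < #(ℕ → K) := by
  let f : ℕ → Cardinal.{0} := fun n => Nat.rec (c + ℵ₀ + #(Set II)) (fun _ a => 2 ^ a) n
  have h0 := le_sum f 0
  have h1 : ℵ₀ ≤ sum f := (le_add_self.trans le_self_add).trans h0
  have : Infinite (sum f).out := by rw [infinite_iff, mk_out]; exact h1
  refine ⟨(sum f).out, ?_⟩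
  rw [mk_prod, lift_id, lift_id, mk_list_eq_mk, mk_pi, mk_out]
  exact ⟨(le_self_add.trans le_self_add).trans h0, h1,
    (mul_le_mul_left (le_add_self.trans h0) _).trans (mul_eq_self h1).le,
    (sum_lt_prod f (fun n => f (n + 1)) fun n => cantor _).trans_le
      (prod_le_prod _ _ fun n => le_sum f (n + 1))⟩

end Pool.Agent.H.MP_52c726_an
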