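import Pool.Agent.H.MP_52c726_an.A

set_option autoImplicit false

namespace Pool.Agent.H.MP_52c726_an

open Filter Set TopologicalSpace
open scoped ENNReal Classical

/-- coordinates -/
abbrev Om (K : Type) : Type := (Set II × List K) ⊕ (II × Set (ℕ → K))

/-- generators -/
abbrev Gn (K : Type) : Type := (Set II × List K) ⊕ (II × (ℕ → K))

/-- bounded functions -/
noncomputable abbrev LL (𝕜 K : Type) [RCLike 𝕜] := lp (fun _ : Om K => 𝕜) ∞

variable {K : Type} (𝕜 : Type) [RCLike 𝕜]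

/-- indicator functions -/
noncomputable def χ (A : Set (Om K)) : LL 𝕜 K :=
  ⟨fun ω => if ω ∈ A then 1 else 0, memℓp_infty ⟨1, by
    rintro _ ⟨ω, rfl⟩
    dsimp only
    split_ifs <;> simp⟩⟩

theorem χ_apply (A : Set (Om K)) (ω : Om K) : χ 𝕜 A ω = if ω ∈ A then 1 else 0 := rfl

theorem pull_le (s : Set (Om K)) (p : Om K → Om K) (u : LL 𝕜 K) (ω : Om K) :
    ‖if ω ∈ s then u (p ω) else 0‖ ≤ ‖u‖ := by
  split_ifs
  · exact lp.norm_apply_le_norm ENNReal.top_ne_zero u _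
  · simp

/-- composition followed by a cut-off -/
noncomputable def pull (s : Set (Om K)) (p : Om K → Om K) : LL 𝕜 K →L[𝕜] LL 𝕜 K :=
  LinearMap.mkContinuous
  { toFun := fun u => ⟨fun ω => if ω ∈ s then u (p ω) else 0, memℓp_infty ⟨‖u‖, by
      rintro _ ⟨ω, rfl⟩
      exact pull_le 𝕜 s p u ω⟩⟩
    map_add' := fun a b => lp.ext (funext fun ω => by
      change (if ω ∈ s then (a + b) (p ω) else 0) =
        (if ω ∈ s then a (p ω) else 0) + if ω ∈ s then b (p ω) else 0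
      split_ifs <;> simp)
    map_smul' := fun c a => lp.ext (funext fun ω => by
      change (if ω ∈ s then (c • a) (p ω) else 0) = c • if ω ∈ s then a (p ω) else 0
      split_ifs <;> simp) } 1 fun u => by
    rw [one_mul]
    exact lp.norm_le_of_forall_le (norm_nonneg _) (pull_le 𝕜 s p u)

theorem pull_apply (s : Set (Om K)) (p : Om K → Om K) (u : LL 𝕜 K) (ω : Om K) :
    pull 𝕜 s p u ω = if ω ∈ s then u (p ω) else 0 := rfl

/-- supports of the generators -/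
def vs : Gn K → Set (Om K)
  | .inl e => {.inl e}
  | .inr t => {ω | Sum.elim (· ∈ range (dd t)) (fun p => p.1 = t.1 ∧ t.2 ∈ p.2) ω}

/-- closed span of a set of generators -/
noncomputable def sp (G : Set (Gn K)) : Submodule 𝕜 (LL 𝕜 K) :=
  (Submodule.span 𝕜 ((fun i => χ 𝕜 (vs i)) '' G)).topologicalClosure

variable {𝕜}

theorem sp_closed (G : Set (Gn K)) : IsClosed (sp 𝕜 G : Set (LL 𝕜 K)) :=
  Submodule.isClosed_topologicalClosure _

theorem sp_le {G : Set (Gn K)} {M : Submodule 𝕜 (LL 𝕜 K)} (hM : IsClosed (M : Set (LL 𝕜 K)))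
    (h : ∀ i ∈ G, χ 𝕜 (vs i) ∈ M) : sp 𝕜 G ≤ M :=
  Submodule.topologicalClosure_minimal _ (Submodule.span_le.2 (forall_mem_image.2 h)) hM

theorem gen_mem {G : Set (Gn K)} {i : Gn K} (h : i ∈ G) : χ 𝕜 (vs i) ∈ sp 𝕜 G :=
  Submodule.le_topologicalClosure _ (Submodule.subset_span ⟨i, h, rfl⟩)

theorem sp_mono {G H : Set (Gn K)} (h : G ⊆ H) : sp 𝕜 G ≤ sp 𝕜 H :=
  sp_le (sp_closed H) fun _ hi => gen_mem (h hi)

theorem fin_mem {G : Set (Gn K)} {F : Set (Set II × List K)} (hF : F.Finite)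
    (h : ∀ e ∈ F, Sum.inl e ∈ G) : χ 𝕜 (Sum.inl '' F) ∈ sp 𝕜 G := by
  have : χ 𝕜 (Sum.inl '' F : Set (Om K)) = ∑ e ∈ hF.toFinset, χ 𝕜 (vs (.inl e)) := by
    ext ω
    rw [lp.coeFn_sum, Finset.sum_apply]
    rcases ω with e | p <;> simp [χ_apply, vs]
  rw [this]
  exact Submodule.sum_mem _ fun e he => gen_mem (h e (hF.mem_toFinset.1 he))

theorem cnt {u : LL 𝕜 K} (hu : u ∈ sp 𝕜 univ) : ∃ G, G.Countable ∧ u ∈ sp 𝕜 G := by
  obtain ⟨a, ha, hl⟩ := mem_closure_iff_seq_limit.1 hu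
  choose l _ hl' using fun n => (Finsupp.mem_span_image_iff_linearCombination 𝕜).1 (ha n)
  refine ⟨⋃ n, (l n).support, countable_iUnion fun n => Finset.countable_toSet _,
    (sp_closed _).mem_of_tendsto hl (Eventually.of_forall fun n => ?_)⟩
  rw [← hl', Finsupp.linearCombination_apply]
  exact Submodule.sum_mem _ fun i hi => Submodule.smul_mem _ _ (gen_mem (mem_iUnion.2 ⟨n, hi⟩))

theorem sp_sep {G : Set (Gn K)} (hG : G.Countable) : IsSeparable (sp 𝕜 G : Set (LL 𝕜 K)) :=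
  ((hG.image _).isSeparable.span (R := 𝕜)).closure

theorem proj {G : Set (Gn K)} (hG : G.Countable) : ∃ H, G ⊆ H ∧ H.Countable ∧
    ∃ P : LL 𝕜 K →L[𝕜] LL 𝕜 K, (∀ u ∈ sp 𝕜 univ, P u ∈ sp 𝕜 H) ∧ ∀ u ∈ sp 𝕜 H, P u = u := by
  set C := Sum.inr ⁻¹' G
  have hC : C.Countable := hG.preimage Sum.inr_injective
  set D := Sum.inl ⁻¹' G ∪ ⋃ t ∈ C, range (dd t)
  have hD : D.Countable :=
    (hG.preimage Sum.inl_injective).union (hC.biUnion fun _ _ => countable_range _)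
  have hCD : ∀ t ∈ C, ∀ n, dd t n ∈ D := fun t ht n => Or.inr (mem_iUnion₂.2 ⟨t, ht, n, rfl⟩)
  obtain ⟨o, ho⟩ := owner hD
  let P := pull 𝕜 {ω | Sum.elim (· ∈ D) (fun _ => True) ω}
      (Sum.map id fun p => (p.1, {x | x ∈ p.2 ∧ (p.1, x) ∈ C})) -
    pull 𝕜 {ω | Sum.elim (· ∈ D) (fun _ => False) ω}
      (Sum.elim (fun e => .inr (o e, {x | (o e, x) ∉ C ∧ e ∈ range (dd (o e, x))})) .inr)
  have P1 : ∀ u e, P u (.inl e) = if e ∈ D then
      u (.inl e) - u (.inr (o e, {x | (o e, x) ∉ C ∧ e ∈ range (dd (o e, x))})) else 0 := by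
    intro u e
    simp only [P, sub_apply, lp.coeFn_sub, Pi.sub_apply, pull_apply]
    by_cases e ∈ D <;> simp [*]
  have P2 : ∀ u p, P u (.inr p) = u (.inr (p.1, {x | x ∈ p.2 ∧ (p.1, x) ∈ C})) := by
    intro u p
    simp only [P, sub_apply, lp.coeFn_sub, Pi.sub_apply, pull_apply]
    simp
  clear_value P
  let H : Set (Gn K) := Sum.inl '' D ∪ Sum.inr '' C
  have h1 : ∀ i ∈ H, P (χ 𝕜 (vs i)) = χ 𝕜 (vs i) := by
    rintro _ (⟨e, he, rfl⟩ | ⟨⟨δ, x⟩, ht, rfl⟩) <;> ext (e' | ⟨δ', E⟩)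
    · rw [P1]
      by_cases e' = e <;> simp [χ_apply, vs, *]
    · simp [P2, χ_apply, vs]
    · rw [P1]
      by_cases h : e' ∈ range (dd (δ, x))
      · obtain ⟨n, rfl⟩ := h
        by_cases h : o (dd (δ, x) n) = δ <;> simp [χ_apply, vs, hCD _ ht n, h, ht]
      · by_cases h' : o e' = δ <;> simp [χ_apply, vs, -mem_range, h, h', ht]
    · by_cases h : δ' = δ <;> simp [P2, χ_apply, vs, h, ht]
  have h2 : ∀ i, P (χ 𝕜 (vs i)) ∈ sp 𝕜 H := by
    intro i
    by_cases hi : i ∈ H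
    · exact (h1 i hi).symm ▸ gen_mem hi
    rcases i with e | ⟨δ, x⟩
    · have he : e ∉ D := fun h => hi (Or.inl ⟨e, h, rfl⟩)
      have : P (χ 𝕜 (vs (.inl e))) = 0 := by
        ext (e' | ⟨δ', E⟩)
        · rw [P1]
          by_cases e' = e <;> simp [χ_apply, vs, *]
        · simp [P2, χ_apply, vs]
      simp [this]
    · have ht : (δ, x) ∉ C := fun h => hi (Or.inr ⟨_, h, rfl⟩)
      have : P (χ 𝕜 (vs (.inr (δ, x)))) =
          χ 𝕜 (Sum.inl '' (dd (δ, x) '' {n | dd (δ, x) n ∈ D ∧ o (dd (δ, x) n) ≠ δ})) := by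
        ext (e' | ⟨δ', E⟩)
        · rw [P1]
          have : (Sum.inl e' : Om K) ∈ Sum.inl '' (dd (δ, x) ''
              {n | dd (δ, x) n ∈ D ∧ o (dd (δ, x) n) ≠ δ}) ↔
              e' ∈ range (dd (δ, x)) ∧ e' ∈ D ∧ o e' ≠ δ := by
            rw [Sum.inl_injective.mem_set_image]
            exact ⟨fun ⟨n, a, b⟩ => ⟨⟨n, b⟩, b ▸ a⟩, fun ⟨⟨n, b⟩, a⟩ => ⟨n, by rwa [← b] at a, b⟩⟩
          simp only [χ_apply, this]
          by_cases e' ∈ range (dd (δ, x)) <;> by_cases e' ∈ D <;> by_cases o e' = δ <;>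
            simp [vs, -mem_range, *]
        · by_cases h : δ' = δ <;> simp [P2, χ_apply, vs, h, ht]
      rw [this]
      refine fin_mem (Finite.image _ ?_) ?_
      · have := ho (δ, x)
        rw [← Nat.cofinite_eq_atTop, eventually_cofinite] at this
        simpa using this
      · rintro _ ⟨n, hn, rfl⟩
        exact Or.inl ⟨_, hn.1, rfl⟩
  refine ⟨H, ?_, (hD.image _).union (hC.image _), P,
    sp_le (M := (sp 𝕜 H).comap P.toLinearMap) ((sp_closed H).preimage P.continuous) fun i _ => h2 i,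
    sp_le (M := LinearMap.eqLocus P.toLinearMap LinearMap.id)
      (isClosed_eq P.continuous continuous_id) h1⟩
  rintro (e | t) h
  · exact Or.inl ⟨e, Or.inl h, rfl⟩
  · exact Or.inr ⟨t, h, rfl⟩

theorem scp : SCP 𝕜 (sp 𝕜 (univ : Set (Gn K))) := by
  rintro S - ⟨s, hs, hS⟩
  choose G h1 h2 using fun u : sp 𝕜 (univ : Set (Gn K)) => cnt u.2
  obtain ⟨H, h3, h4, P, h5, h6⟩ := proj (𝕜 := 𝕜) (hs.biUnion fun u _ => h1 u)
  refine ⟨(sp 𝕜 H).comap (Submodule.subtype _), fun u hu => ?_,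
    Topology.IsInducing.subtypeVal.isSeparable_preimage (sp_sep h4),
    ((P.comp (Submodule.subtypeL _)).codRestrict _ fun u =>
      sp_mono (subset_univ _) (h5 _ u.2)).codRestrict _ fun u => h5 _ u.2,
    fun u => Subtype.ext (Subtype.ext (h6 _ u.2))⟩
  exact closure_minimal (fun v hv => sp_mono ((subset_biUnion_of_mem hv).trans h3) (h2 v))
    ((sp_closed H).preimage continuous_subtype_val) (hS hu)

end Pool.Agent.H.MP_52c726_an
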