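import Pool.Agent.H.MP_52c726_an.B

set_option autoImplicit false

namespace Pool.Agent.H.MP_52c726_an

open Filter Set TopologicalSpace Cardinal
open scoped ENNReal Classical

variable {K 𝕜 : Type} [RCLike 𝕜]

theorem near {u : LL 𝕜 K} (hu : u ∈ sp 𝕜 univ) (t : II × (ℕ → K))
    (h0 : u (.inr (t.1, {t.2})) = 0) : ∃ n, ‖u (.inl (dd t n))‖ < 1 / 2 := by
  obtain ⟨a, ha, hd⟩ := Metric.mem_closure_iff.1 hu (1 / 4) (by norm_num)
  have h1 : ∀ᶠ n in atTop, a (.inl (dd t n)) = a (.inr (t.1, {t.2})) := by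
    clear hd
    induction ha using Submodule.span_induction with
    | mem x hx =>
      obtain ⟨e | s, -, rfl⟩ := hx
      · filter_upwards [eventually_gt_atTop e.2.length] with n hn
        have : dd t n ≠ e := fun h => by simp [← h, dd] at hn
        simp [χ_apply, vs, this]
      · by_cases h : t = s
        · simp [χ_apply, vs, h]
        · filter_upwards [dd_ne h] with n hn
          have h1 : dd t n ∉ range (dd s) := fun ⟨m, hm⟩ => hn (dd_len hm ▸ hm.symm)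
          have h2 : ¬ (t.1 = s.1 ∧ s.2 = t.2) := fun k => h (Prod.ext k.1 k.2.symm)
          simp [χ_apply, vs, h1, h2, -mem_range]
    | zero => simp
    | add x y _ _ a b => filter_upwards [a, b] with n h k using by simp [h, k]
    | smul c x _ a => filter_upwards [a] with n h using by simp [h]
  obtain ⟨n, hn⟩ := h1.exists
  refine ⟨n, ?_⟩
  rw [dist_eq_norm] at hd
  have h2 := lp.norm_apply_le_norm ENNReal.top_ne_zero (u - a) (.inl (dd t n))
  have h3 := lp.norm_apply_le_norm ENNReal.top_ne_zero (u - a) (.inr (t.1, {t.2}))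
  rw [lp.coeFn_sub, Pi.sub_apply] at h2 h3
  rw [h0, zero_sub, norm_neg, ← hn] at h3
  linarith [norm_le_norm_sub_add (u (.inl (dd t n))) (a (.inl (dd t n)))]

theorem vanish {G : Set (Gn K)} {t : II × (ℕ → K)} (ht : Sum.inr t ∉ G) {u : LL 𝕜 K}
    (hu : u ∈ sp 𝕜 G) : u (.inr (t.1, {t.2})) = 0 := by
  refine sp_le (M := (lp.evalCLM 𝕜 _ ∞ (.inr (t.1, {t.2}))).ker) (ContinuousLinearMap.isClosed_ker _)
    ?_ hu
  rintro (e | s) hi <;> change χ 𝕜 _ _ = 0
  · simp [χ_apply, vs]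
  · have h2 : ¬ (t.1 = s.1 ∧ s.2 = t.2) := fun k => ht (Prod.ext k.1 k.2.symm ▸ hi)
    simp [χ_apply, vs, h2]

theorem big (h1 : ℵ₀ ≤ #K) (h2 : #K < #(ℕ → K)) {ι : Type} (q : ι → LL 𝕜 K)
    (hq : ∀ i, q i ∈ sp 𝕜 univ) (h3 : #ι ≤ #K) : ∃ x, ∀ i δ, q i (.inr (δ, {x})) = 0 := by
  choose G g1 g2 using fun i => cnt (hq i)
  obtain ⟨x, hx⟩ : ∃ x, x ∉ ⋃ i, Prod.snd '' (Sum.inr ⁻¹' G i) := by
    by_contra! h
    refine h2.not_ge ?_
    rw [← mk_univ (α := ℕ → K), ← eq_univ_of_forall h]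
    refine (mk_iUnion_le _).trans ((mul_le_mul' h3 (ciSup_le' fun i => ?_)).trans (mul_eq_self h1).le)
    exact (le_aleph0_iff_set_countable.2 (((g1 i).preimage Sum.inr_injective).image _)).trans h1
  exact ⟨x, fun i δ => vanish (t := (δ, x)) (fun h => hx (mem_iUnion.2 ⟨i, _, h, rfl⟩)) (g2 i)⟩

theorem nosplit (P : sp 𝕜 (univ : Set (Gn K)) →L[𝕜] sp 𝕜 (univ : Set (Gn K)))
    (hW : ∀ u : sp 𝕜 (univ : Set (Gn K)), u.1 ∈ sp 𝕜 (range Sum.inl) → P u = u) (x : ℕ → K)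
    (hx : ∀ u δ, (P u).1 (.inr (δ, {x})) = 0) : False := by
  let g : II → sp 𝕜 (univ : Set (Gn K)) := fun δ => ⟨_, gen_mem (mem_univ (.inr (δ, x)))⟩
  choose m hm using fun δ => near (P (g δ)).2 (δ, x) (hx _ δ)
  obtain ⟨e, he⟩ := press' x m
  obtain ⟨N, hN⟩ := exists_nat_gt (2 * ‖P‖)
  obtain ⟨T, hT, rfl⟩ := he.exists_subset_card_eq N
  obtain ⟨M, hM⟩ := eventually_atTop.1 (((T.eventually_all.2 fun a _ => T.eventually_all.2
    fun b _ => eventually_imp_distrib_left.2 fun h : a ≠ b => dd_ne (t := (a, x)) (s := (b, x))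
      fun k => h (congrArg Prod.fst k))).and (T.eventually_all.2 fun a _ => eventually_gt_atTop (m a)))
  have hw : ∀ δ, χ 𝕜 (Sum.inl '' (dd (δ, x) '' Iio M)) ∈ sp 𝕜 (range (Sum.inl : _ → Gn K)) :=
    fun δ => fin_mem ((finite_Iio M).image _) fun e _ => ⟨e, rfl⟩
  let w : II → sp 𝕜 (univ : Set (Gn K)) := fun δ => ⟨_, sp_mono (subset_univ _) (hw δ)⟩
  have h1 : ‖∑ δ ∈ T, (g δ - w δ)‖ ≤ 1 := by
    refine lp.norm_le_of_forall_le zero_le_one fun ω => ?_
    have h2 : ∀ δ, (g δ - w δ).1 ω = if Sum.elim (· ∈ dd (δ, x) '' Ici M)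
        (fun p => p.1 = δ ∧ x ∈ p.2) ω then 1 else 0 := by
      intro δ
      change χ 𝕜 _ ω - χ 𝕜 _ ω = _
      rcases ω with d | p
      · by_cases h : d ∈ range (dd (δ, x))
        · obtain ⟨n, rfl⟩ := h
          have hi : Function.Injective (dd (δ, x)) := fun _ _ => dd_len
          by_cases n < M <;>
            simp [χ_apply, vs, -mem_image, Sum.inl_injective.mem_set_image, hi.mem_set_image, *]
        · have : ∀ s, d ∉ dd (δ, x) '' s := fun s k => h (image_subset_range _ _ k)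
          simp [χ_apply, vs, -mem_image, -mem_range, Sum.inl_injective.mem_set_image, *]
      · simp [χ_apply, vs]
    change ‖(∑ δ ∈ T, (g δ - w δ)).1 ω‖ ≤ 1
    rw [Submodule.coe_sum, lp.coeFn_sum, Finset.sum_apply]
    simp only [h2, Finset.sum_boole, RCLike.norm_natCast, Nat.cast_le_one, Finset.card_le_one,
      Finset.mem_filter]
    rintro a ⟨ha, ha'⟩ b ⟨hb, hb'⟩
    rcases ω with d | p
    · obtain ⟨n, hn, rfl⟩ := ha'
      obtain ⟨k, -, hk⟩ := hb'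
      by_contra hc
      exact (hM n hn).1 a ha b hb hc (dd_len hk ▸ hk.symm)
    · exact ha'.1.symm.trans hb'.1
  have h2 : (P (∑ δ ∈ T, (g δ - w δ))).1 (.inl e) = ∑ δ ∈ T, (P (g δ)).1 (.inl e) - T.card := by
    rw [map_sum, Submodule.coe_sum, lp.coeFn_sum, Finset.sum_apply, Finset.card_eq_sum_ones,
      Nat.cast_sum, ← Finset.sum_sub_distrib]
    refine Finset.sum_congr rfl fun δ hδ => ?_
    rw [map_sub, hW (w δ) (hw δ)]
    change _ - χ 𝕜 _ _ = _
    rw [χ_apply, if_pos ⟨e, ⟨m δ, (hM M le_rfl).2 δ hδ, hT hδ⟩, rfl⟩, Nat.cast_one]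
  have h3 : ‖∑ δ ∈ T, (P (g δ)).1 (.inl e)‖ ≤ T.card * (1 / 2) := by
    rw [← nsmul_eq_mul]
    exact (norm_sum_le _ _).trans (Finset.sum_le_card_nsmul _ _ _ fun δ hδ => (hT hδ ▸ hm δ :).le)
  have h4 := lp.norm_apply_le_norm ENNReal.top_ne_zero (P (∑ δ ∈ T, (g δ - w δ))).1 (.inl e)
  have h5 := (P.le_opNorm _).trans (mul_le_of_le_one_right P.opNorm_nonneg h1)
  have h6 := norm_sub_norm_le (T.card : 𝕜) (∑ δ ∈ T, (P (g δ)).1 (.inl e))
  rw [h2, norm_sub_rev] at h4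
  rw [RCLike.norm_natCast] at h6
  have h7 := h4.trans h5
  linarith

theorem dens_W (h0 : #𝕜 ≤ #K) (h1 : #(Set II × List K) ≤ #K) :
    dens ((sp 𝕜 (range Sum.inl)).comap (sp 𝕜 (univ : Set (Gn K))).subtype) ≤ #K := by
  let S := Submodule.span 𝕜 ((fun i => χ 𝕜 (vs i)) '' range (Sum.inl : _ → Gn K))
  refine (csInf_le' (s := {c | ∃ s : Set ((sp 𝕜 (range Sum.inl)).comap
    (sp 𝕜 (univ : Set (Gn K))).subtype), Dense s ∧ #s = c}) ⟨{w | w.1.1 ∈ S}, ?_, rfl⟩).trans ?_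
  · refine (Topology.IsInducing.subtypeVal.comp Topology.IsInducing.subtypeVal).dense_iff.2
      fun w => closure_mono (fun a ha => ?_) w.2
    have h := Submodule.le_topologicalClosure _ ha
    exact ⟨⟨⟨a, sp_mono (subset_univ _) h⟩, h⟩, ha, rfl⟩
  · refine le_trans (b := #S) (mk_le_of_injective (f := fun w => ⟨w.1.1.1, by exact w.2⟩)
      fun a b h => Subtype.ext (Subtype.ext (Subtype.ext (congrArg (fun z : S => z.1) h)))) ?_
    simp only [S, ← range_comp, ← Finsupp.range_linearCombination]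
    refine mk_range_le.trans ?_
    have : Infinite 𝕜 := CharZero.infinite 𝕜
    rw [mk_finsupp_of_infinite']
    exact max_le h1 h0

end Pool.Agent.H.MP_52c726_an
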