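import Mathlib

set_option autoImplicit false

namespace Pool.Agent.H.MP_52c726_an

/-- The density character: the least cardinality of a dense subset. -/
noncomputable def dens (Y : Type) [TopologicalSpace Y] : Cardinal :=
  sInf {c | ∃ s : Set Y, Dense s ∧ Cardinal.mk s = c}

/-- The separable complementation property. -/
def SCP (𝕜 X : Type) [RCLike 𝕜] [NormedAddCommGroup X] [NormedSpace 𝕜 X] : Prop :=
  ∀ S : Submodule 𝕜 X, IsClosed (S : Set X) → TopologicalSpace.IsSeparable (S : Set X) →
    ∃ V : Submodule 𝕜 X, S ≤ V ∧ TopologicalSpace.IsSeparable (V : Set X) ∧ V.ClosedComplemented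

end Pool.Agent.H.MP_52c726_an
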